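import Pool.Agent.Run7.h233.ZK.Defs

open Finset
open scoped InnerProductSpace ComplexConjugate

namespace Pool.Agent.Run7.h538.ZK

open Pool.Agent.Run7.h233.ZK

theorem SS (N : ℕ) : Smat N * Smat N = 1 := by
  unfold Smat
  rw [Matrix.diagonal_mul_diagonal, ← Matrix.diagonal_one]
  congr 1
  funext m
  split_ifs <;> simp

theorem Wop_vec (N : ℕ) (c : ℤ → ℂ) (g : ℤ → ℂ) (m : Bx N) :
    (Wop N c (vec N g)) m = (1 / 2 : ℂ) * ∑ l : Bx N,
      ((Amat N c * Amat N c) m l - (if (m : ℤ) < 0 then (-1 : ℂ) else 1) *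
        (Amat N c * Amat N c) m l * (if (l : ℤ) < 0 then (-1 : ℂ) else 1)) * g l := by
  have h1 : (Wop N c (vec N g)) = WithLp.toLp 2 ((1 / 2 : ℂ) •
      ((Amat N c * Amat N c - Smat N * (Amat N c * Amat N c) * Smat N).mulVec
        (fun m : Bx N => g m))) := by
    have h2 : Smat N * (Amat N c * Amat N c) * Smat N =
        Smat N * Amat N c * Smat N * (Smat N * Amat N c * Smat N) := by
      have h3 := SS N
      calc Smat N * (Amat N c * Amat N c) * Smat N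
          = Smat N * Amat N c * (Smat N * Smat N) * (Amat N c * Smat N) := by
            rw [h3, mul_one]; simp only [mul_assoc]
        _ = _ := by simp only [mul_assoc]
    rw [h2]
    simp only [Wop, Aop, Sop, vec, pow_two, LinearMap.smul_apply, LinearMap.sub_apply,
      Module.End.mul_apply, Matrix.toLpLin_apply, Matrix.sub_mulVec, Matrix.mulVec_mulVec,
      WithLp.toLp_smul, WithLp.toLp_sub, Matrix.mul_assoc]
  rw [h1]
  show ((1 / 2 : ℂ) • ((Amat N c * Amat N c - Smat N * (Amat N c * Amat N c) * Smat N).mulVec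
        (fun m : Bx N => g m))) m = _
  rw [Pi.smul_apply, smul_eq_mul]
  congr 1
  rw [Matrix.mulVec, dotProduct]
  refine Finset.sum_congr rfl fun l _ => ?_
  rw [Matrix.sub_apply]
  congr 2
  unfold Smat
  rw [Matrix.mul_diagonal, Matrix.diagonal_mul]

theorem AA_apply (N : ℕ) (c : ℤ → ℂ) (m l : Bx N) :
    (Amat N c * Amat N c) m l = ((Real.sqrt |((m : ℤ) : ℝ)| * Real.sqrt |((l : ℤ) : ℝ)| : ℝ) : ℂ) *
      ∑ p ∈ Finset.Icc (-(N : ℤ)) N, ((|p| : ℤ) : ℂ) * c (p - m) * c (l - p) := by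
  rw [Matrix.mul_apply, ← Finset.sum_coe_sort (Finset.Icc (-(N : ℤ)) (N : ℤ))
    (fun p : ℤ => ((|p| : ℤ) : ℂ) * c (p - m) * c (l - p)), Finset.mul_sum]
  refine Finset.sum_congr rfl fun p _ => ?_
  simp only [Amat, Matrix.of_apply]
  have h : ((|(p : ℤ)| : ℤ) : ℂ) =
      ((Real.sqrt |((p : ℤ) : ℝ)| : ℝ) : ℂ) * ((Real.sqrt |((p : ℤ) : ℝ)| : ℝ) : ℂ) := by
    rw [← Complex.ofReal_mul, Real.mul_self_sqrt (abs_nonneg _)]
    push_cast
    norm_cast
  rw [h]
  push_cast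
  ring

theorem P15 (N D K : ℕ) (hN : K + D ≤ N) (c : ℤ → ℂ) (hc : Fin0 D c) (α β : ℤ → ℂ)
    (hα : ∀ m, m ∉ Finset.Icc (1 : ℤ) K → α m = 0) (hβ : ∀ m, m ∉ Finset.Icc (1 : ℤ) K → β m = 0) :
    ⟪vec N (fun m => conj (α m)), Wop N c (vec N (fun m => β (-m)))⟫_ℂ
      = ∑ m ∈ Finset.Icc (1 : ℤ) K, ∑ n ∈ Finset.Icc (1 : ℤ) K,
        α m * β n * ((Real.sqrt m * Real.sqrt n : ℝ) : ℂ) * G c m n := by
  have hG : ∀ m n : ℤ, m ∈ Finset.Icc (1 : ℤ) K →
      G c m n = ∑ p ∈ Finset.Icc (-(N : ℤ)) N, ((|p| : ℤ) : ℂ) * c (p - m) * c (-p - n) := by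
    intro m n hm
    unfold G
    refine tsum_eq_sum fun p hp => ?_
    have : c (p - m) = 0 := by
      apply hc
      intro h
      apply hp
      rw [Finset.mem_Icc] at *
      have h1 : (K : ℤ) + D ≤ N := by exact_mod_cast hN
      have h2 : (0 : ℤ) ≤ D := by positivity
      have h3 : (0 : ℤ) ≤ K := by positivity
      omega
    rw [this]
    ring
  have h1 : (K : ℤ) + D ≤ N := by exact_mod_cast hN
  have h2 : (0 : ℤ) ≤ D := by positivity
  have h3 : (0 : ℤ) ≤ K := by positivity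
  have hsub : Finset.Icc (1 : ℤ) K ⊆ Finset.Icc (-(N : ℤ)) N := by
    intro x hx
    rw [Finset.mem_Icc] at *
    omega
  have hL : ⟪vec N (fun m => conj (α m)), Wop N c (vec N (fun m => β (-m)))⟫_ℂ =
      ∑ m : Bx N, α m * (Wop N c (vec N (fun m => β (-m)))) m := by
    rw [PiLp.inner_apply]
    refine Finset.sum_congr rfl fun m _ => ?_
    rw [RCLike.inner_apply]
    simp [vec, mul_comm]
  rw [hL]
  -- the function on ℤ
  have hF : ∀ m : Bx N, α m * (Wop N c (vec N (fun m => β (-m)))) m =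
      (fun m : ℤ => α m * ∑ n ∈ Finset.Icc (1 : ℤ) K,
        β n * ((Real.sqrt m * Real.sqrt n : ℝ) : ℂ) * G c m n) m := by
    intro m
    simp only
    by_cases hm : (m : ℤ) ∈ Finset.Icc (1 : ℤ) K
    swap
    · rw [hα _ hm]; simp
    congr 1
    rw [Wop_vec]
    have hm' := Finset.mem_Icc.1 hm
    have hm0 : ¬ (m : ℤ) < 0 := by omega
    have hs : ∀ l : Bx N, ((Amat N c * Amat N c) m l - (if (m : ℤ) < 0 then (-1 : ℂ) else 1) *
        (Amat N c * Amat N c) m l * (if (l : ℤ) < 0 then (-1 : ℂ) else 1)) *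
          (fun m => β (-m)) (l : ℤ) =
        (fun l : ℤ => 2 * ((((Real.sqrt |((m : ℤ) : ℝ)| * Real.sqrt |((l : ℤ) : ℝ)| : ℝ) : ℂ) *
      ∑ p ∈ Finset.Icc (-(N : ℤ)) N, ((|p| : ℤ) : ℂ) * c (p - m) * c (l - p)) * β (-l))) l := by
      intro l
      simp only
      by_cases hl : -(l : ℤ) ∈ Finset.Icc (1 : ℤ) K
      swap
      · rw [hβ _ hl]; simp
      have hl' := Finset.mem_Icc.1 hl
      have hl0 : (l : ℤ) < 0 := by omega
      rw [if_neg hm0, if_pos hl0, AA_apply]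
      ring
    rw [Finset.sum_congr rfl (fun l _ => hs l), Finset.sum_coe_sort (Finset.Icc (-(N : ℤ)) N)
      (fun l : ℤ => 2 * ((((Real.sqrt |((m : ℤ) : ℝ)| * Real.sqrt |((l : ℤ) : ℝ)| : ℝ) : ℂ) *
      ∑ p ∈ Finset.Icc (-(N : ℤ)) N, ((|p| : ℤ) : ℂ) * c (p - m) * c (l - p)) * β (-l)))]
    rw [Finset.mul_sum]
    have h4 : ∑ n ∈ Finset.Icc (1 : ℤ) K, β n * ((Real.sqrt (m : ℤ) * Real.sqrt n : ℝ) : ℂ) *
        G c m n = ∑ n ∈ Finset.Icc (-(N : ℤ)) N,
          β n * ((Real.sqrt |((m : ℤ) : ℝ)| * Real.sqrt |(n : ℝ)| : ℝ) : ℂ) *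
            ∑ p ∈ Finset.Icc (-(N : ℤ)) N, ((|p| : ℤ) : ℂ) * c (p - m) * c (-p - n) := by
      rw [← Finset.sum_subset hsub]
      · refine Finset.sum_congr rfl fun n hn => ?_
        rw [hG _ _ hm]
        have hn' := Finset.mem_Icc.1 hn
        have e1 : |((m : ℤ) : ℝ)| = ((m : ℤ) : ℝ) := abs_of_nonneg (by exact_mod_cast (by omega : (0:ℤ) ≤ m))
        have e2 : |(n : ℝ)| = (n : ℝ) := abs_of_nonneg (by exact_mod_cast (by omega : (0:ℤ) ≤ n))
        rw [e1, e2]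
      · intro n _ hn
        rw [hβ _ hn]
        simp
    rw [h4]
    refine Finset.sum_nbij' (fun l => -l) (fun l => -l) ?_ ?_ ?_ ?_ ?_
    · intro l hl; rw [Finset.mem_Icc] at *; omega
    · intro l hl; rw [Finset.mem_Icc] at *; omega
    · intro l _; simp
    · intro l _; simp
    · intro l _
      push_cast
      rw [abs_neg]
      have : ∀ p : ℤ, c (-p - -l) = c (l - p) := fun p => by congr 1; ring
      simp only [this]
      ring
  rw [Finset.sum_congr rfl (fun m _ => hF m), Finset.sum_coe_sort (Finset.Icc (-(N : ℤ)) N)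
    (fun m : ℤ => α m * ∑ n ∈ Finset.Icc (1 : ℤ) K,
        β n * ((Real.sqrt m * Real.sqrt n : ℝ) : ℂ) * G c m n)]
  rw [← Finset.sum_subset hsub]
  · refine Finset.sum_congr rfl fun m _ => ?_
    rw [Finset.mul_sum]
    refine Finset.sum_congr rfl fun n _ => ?_
    ring
  · intro m _ hm
    rw [hα _ hm]
    simp

end Pool.Agent.Run7.h538.ZK
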